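import Pool.Agent.H586P.FO

/-!
# Separating `F` from `F` + permutation is as hard as separating `F` from extended Frege
-/

set_option autoImplicit false

namespace Pool.Agent.H586S

open Pool.Agent.H555R2.PF Pool.Agent.H555R2.PF.Fm Pool.Agent.H586P Filter

/-- `A` has a proof in the Frege system `F` with at most `m` symbols. -/
def FSize (F : List Rule) (A : Fm) (m : ℕ) : Prop :=
  ∃ L : List Fm, FO.FProof F (A :: L) ∧ psize (A :: L) ≤ m

/-- `A` has a proof in `F` + permutation with at most `m` symbols. -/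
def PermSize (F : List Rule) (A : Fm) (m : ℕ) : Prop :=
  ∃ L : List Fm, PermProof F (A :: L) ∧ psize (A :: L) ≤ m

/-- `A` has a proof in the extended Frege system over `F` with at most `m` symbols. -/
def EFSize (F : List Rule) (A : Fm) (m : ℕ) : Prop :=
  ∃ (k : ℕ) (L : List Fm), EFProof F A k (A :: L) ∧ psize (A :: L) ≤ m

/-- An exponential separation: for some `ε > 0` there are formulas `τ₀, τ₁, …` whose sizes tend
to infinity, with `P`-proofs of polynomial size, while all `Q`-proofs of `τₙ` have size at least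
`2 ^ |τₙ| ^ ε`. -/
def ExpSep (P Q : Fm → ℕ → Prop) : Prop :=
  ∃ (ε : ℝ) (c : ℕ) (τ : ℕ → Fm), 0 < ε ∧ Tendsto (fun n => (τ n).size) atTop atTop ∧
    ∀ n, P (τ n) (c * (τ n).size ^ c) ∧
      ∀ m : ℕ, Q (τ n) m → (2 : ℝ) ^ (((τ n).size : ℝ) ^ ε) ≤ m

/-- `Q` polynomially simulates `P` -/
def PolySim (P Q : Fm → ℕ → Prop) : Prop :=
  ∃ c : ℕ, ∀ (A : Fm) (m : ℕ), P A m → Q A (c * m ^ c)

/-- `A ∨ (A ∨ … ∨ A)` -/
def rep (A : Fm) : ℕ → Fm
  | 0 => A
  | k + 1 => or A (rep A k)

theorem subst_copy (A : Fm) (i : ℕ) :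
    (copy i A).subst (fun n => var (Nat.unpair n).2) = A := by
  rw [copy, rename, subst_subst]
  conv_rhs => rw [← subst_var A]
  apply subst_congr
  intro n _
  simp [subst]

theorem subst_copies (A : Fm) (k : ℕ) :
    (copies A k).subst (fun n => var (Nat.unpair n).2) = rep A k := by
  induction k with
  | zero => exact subst_copy A 0
  | succ k ih => simp only [copies, subst, rep, ih, subst_copy]

theorem rep_size (A : Fm) (k : ℕ) : (rep A k).size = (k + 1) * A.size + k := by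
  induction k with
  | zero => simp [rep]
  | succ k ih => simp only [rep, size, ih]; ring

theorem fproof_subst {F : List Rule} {L : List Fm} (h : FO.FProof F L) (σ : ℕ → Fm) :
    FO.FProof F (L.map (Fm.subst σ)) := by
  induction h with
  | nil => exact FO.FProof.nil
  | @rule L B hL hB ih =>
    obtain ⟨r, hr, τ, h1, h2⟩ := hB
    refine FO.FProof.rule ih ⟨r, hr, fun n => (τ n).subst σ, by rw [h1, subst_subst], ?_⟩
    intro p hp
    exact List.mem_map.2 ⟨_, h2 p hp, by rw [subst_subst]⟩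

theorem psize_subst_var (f : ℕ → ℕ) (L : List Fm) :
    psize (L.map (Fm.subst fun n => var (f n))) = psize L :=
  psize_rename f L

theorem fproof_cut {F : List Rule} {L : List Fm} (h : FO.FProof F L) {B : Fm} (hB : B ∈ L) :
    ∃ L', FO.FProof F (B :: L') ∧ psize (B :: L') ≤ psize L := by
  induction h with
  | nil => simp at hB
  | @rule L C hL hC ih =>
    rcases List.mem_cons.1 hB with rfl | hB
    · exact ⟨L, FO.FProof.rule hL hC, le_rfl⟩
    · obtain ⟨L', h1, h2⟩ := ih hB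
      exact ⟨L', h1, by rw [psize_cons C]; omega⟩

theorem rep_elim {F : List Rule} (hF : IsFrege F) : ∃ c : ℕ, ∀ (A : Fm) (k : ℕ) (M : ℕ),
    (rep A k).size ≤ M → ∀ Γ : Set Fm, FO.Can F Γ [imp (rep A k) A] (c * M * (k + 1)) := by
  obtain ⟨c₁, h₁⟩ := FO.schemaL hF [] (imp (var 0) (var 0)) (by intro v _; simp [eval])
  obtain ⟨c₂, h₂⟩ := FO.schemaL hF [imp (var 1) (var 0)] (imp (or (var 0) (var 1)) (var 0)) (by
    intro v h; simp [eval] at h ⊢; tauto)
  refine ⟨c₁ + c₂, fun A k => ?_⟩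
  induction k with
  | zero =>
    intro M hM Γ
    have hM1 : 1 ≤ M := (size_pos _).trans hM
    refine ((h₁ [A] M hM1 ?_ Γ (by simp)).sub ?_).mono subset_rfl ?_
    · intro X hX; simp at hX; subst hX; exact hM
    · intro B hB; simpa [subst, asg, rep] using hB
    · nlinarith [Nat.zero_le (c₂ * M)]
  | succ k ih =>
    intro M hM Γ
    have hM1 : 1 ≤ M := (size_pos _).trans hM
    have hs : A.size ≤ M ∧ (rep A k).size ≤ M := by
      simp only [rep, size] at hM; omega
    have r := ih M hs.2 Γ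
    have s := h₂ [A, rep A k] M hM1 (by
      intro X hX; simp at hX; rcases hX with rfl | rfl
      exacts [hs.1, hs.2]) (Γ ∪ {B | B ∈ [imp (rep A k) A]}) (by
      intro X hX; simp only [List.mem_singleton] at hX; subst hX
      right; simp [subst, asg])
    refine ((r.cut s).sub ?_).mono subset_rfl ?_
    · intro B hB; simpa [subst, asg, rep] using hB
    · nlinarith [Nat.zero_le (c₁ * M)]

/-- contraction of the copies in a Frege proof -/
theorem contract {F : List Rule} (hF : IsFrege F) : ∃ c : ℕ, ∀ (A : Fm) (k m : ℕ),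
    FSize F (copies A k) m → FSize F A (c * m ^ 2) := by
  obtain ⟨c₁, h₁⟩ := rep_elim hF
  obtain ⟨c₂, h₂⟩ := FO.schemaL hF [imp (var 0) (var 1), var 0] (var 1) (by
    intro v h; simp [eval] at h ⊢; tauto)
  refine ⟨c₁ + c₂ + 1, fun A k m => ?_⟩
  rintro ⟨L, hL, hm⟩
  have g := fproof_subst hL (fun n => var (Nat.unpair n).2)
  rw [List.map_cons, subst_copies] at g
  have hpm : psize (rep A k :: L.map (Fm.subst fun n => var (Nat.unpair n).2)) ≤ m := by
    have := psize_subst_var (fun n => (Nat.unpair n).2) (copies A k :: L)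
    rw [List.map_cons, subst_copies] at this
    omega
  have hs : (rep A k).size ≤ m := by
    rw [psize_cons] at hpm; omega
  have hk : k + 1 ≤ m := by
    rw [rep_size] at hs
    nlinarith [size_pos A]
  have hA : A.size ≤ m := by
    rw [rep_size] at hs
    nlinarith [size_pos A]
  have hm1 : 1 ≤ m := by omega
  have r := h₁ A k m hs {rep A k}
  have s := h₂ [rep A k, A] m hm1 (by
    intro X hX; simp at hX; rcases hX with rfl | rfl
    exacts [hs, hA]) ({rep A k} ∪ {B | B ∈ [imp (rep A k) A]}) (by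
    intro X hX; simp only [List.mem_cons, List.not_mem_nil, or_false] at hX
    rcases hX with rfl | rfl
    · right; simp [subst, asg]
    · left; simp [subst, asg])
  obtain ⟨D, d1, d2, d3⟩ := (r.cut s) _ g (by intro X hX; simp at hX; subst hX; simp)
  have hAD : A ∈ D ++ (rep A k :: L.map (Fm.subst fun n => var (Nat.unpair n).2)) :=
    d2 A (by simp [subst, asg])
  obtain ⟨L', e1, e2⟩ := fproof_cut d1 hAD
  refine ⟨L', e1, e2.trans ?_⟩
  rw [psize_append]
  have t1 : c₁ * m * (k + 1) ≤ c₁ * m ^ 2 := by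
    rw [pow_two, ← mul_assoc]; exact Nat.mul_le_mul_left _ hk
  have t2 : c₂ * m ≤ c₂ * m ^ 2 := Nat.mul_le_mul_left _ (by nlinarith)
  have t3 : m ≤ m ^ 2 := by nlinarith
  nlinarith

/-- the key fact: a formula whose short Frege proofs would give short Frege proofs of `A`, with a
short proof in `F` + permutation -/
theorem key {F : List Rule} (hF : IsFrege F) : ∃ c : ℕ, ∀ (A : Fm) (s : ℕ), EFSize F A s →
    ∃ B : Fm, A.size ≤ B.size ∧ B.size ≤ c * s ^ 5 ∧ PermSize F B (c * s ^ 5) ∧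
      ∀ m, FSize F B m → FSize F A (c * m ^ 2) := by
  obtain ⟨c₁, h₁⟩ := Pool.Agent.H555R2.PF.main hF
  obtain ⟨c₂, h₂⟩ := contract hF
  refine ⟨c₁ + c₂, fun A s => ?_⟩
  rintro ⟨k, L, hL, hs⟩
  obtain ⟨L', g1, g2⟩ := h₁ A k L hL
  have g3 : psize (copies A k :: L') ≤ (c₁ + c₂) * s ^ 5 :=
    g2.trans (Nat.mul_le_mul (by omega) (Nat.pow_le_pow_left hs 5))
  refine ⟨copies A k, ?_, ?_, ⟨L', g1, g3⟩, ?_⟩
  · rw [copies_size]; nlinarith [size_pos A]
  · rw [psize_cons] at g3; omega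
  · intro m hm
    obtain ⟨L'', e1, e2⟩ := h₂ A k m hm
    exact ⟨L'', e1, e2.trans (Nat.mul_le_mul_right _ (by omega))⟩

theorem polySim_of {F : List Rule} (hF : IsFrege F) (h : PolySim (PermSize F) (FSize F)) :
    PolySim (EFSize F) (FSize F) := by
  obtain ⟨c, hc⟩ := key hF
  obtain ⟨d, hd⟩ := h
  refine ⟨c * (d * (c + 1) ^ d) ^ 2 + 5 * d * 2, fun A m hm => ?_⟩
  obtain ⟨B, -, -, b3, b4⟩ := hc A m hm
  obtain ⟨L, e1, e2⟩ := b4 _ (hd B _ b3)
  refine ⟨L, e1, e2.trans ?_⟩
  have hm1 : 1 ≤ m := by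
    obtain ⟨k, L, -, hs⟩ := hm
    rw [psize_cons] at hs
    have := size_pos A
    omega
  calc c * (d * (c * m ^ 5) ^ d) ^ 2 = c * (d * c ^ d) ^ 2 * m ^ (5 * d * 2) := by
        rw [mul_pow c, ← pow_mul, ← mul_assoc, mul_pow (d * c ^ d), ← pow_mul, ← mul_assoc]
    _ ≤ (c * (d * (c + 1) ^ d) ^ 2 + 5 * d * 2) *
        m ^ (c * (d * (c + 1) ^ d) ^ 2 + 5 * d * 2) := by
        apply Nat.mul_le_mul
        · refine le_trans ?_ (Nat.le_add_right _ _)
          apply Nat.mul_le_mul_left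
          apply Nat.pow_le_pow_left
          apply Nat.mul_le_mul_left
          exact Nat.pow_le_pow_left (by omega) _
        · exact Nat.pow_le_pow_right hm1 (by omega)

theorem expSep_of {F : List Rule} (hF : IsFrege F) (h : ExpSep (EFSize F) (FSize F)) :
    ExpSep (PermSize F) (FSize F) := by
  obtain ⟨c, hc⟩ := key hF
  obtain ⟨ε, d, τ, hε, hτ, hs⟩ := h
  have hs1 : ∀ n, EFSize F (τ n) (d * (τ n).size ^ d) := fun n => (hs n).1
  choose B b1 b2 b3 b4 using fun n => hc (τ n) _ (hs1 n)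
  -- bound of the size of B n
  set C : ℕ := c * (d ^ 5) + 5 * d with hC
  have hBC : ∀ n, c * (d * (τ n).size ^ d) ^ 5 ≤ C * (τ n).size ^ C := by
    intro n
    have h1 := size_pos (τ n)
    calc c * (d * (τ n).size ^ d) ^ 5 = (c * d ^ 5) * (τ n).size ^ (d * 5) := by
          rw [mul_pow, ← pow_mul, mul_assoc]
      _ ≤ C * (τ n).size ^ C := Nat.mul_le_mul (by omega) (Nat.pow_le_pow_right h1 (by
          rw [hC]; omega))
  -- the exponent
  set K : ℝ := C + 1 with hK
  have hK1 : (1 : ℝ) ≤ K := by rw [hK]; have : (0 : ℝ) ≤ C := Nat.cast_nonneg _; linarith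
  have hK0 : 0 < K := by linarith
  set δ : ℝ := ε / (2 * K) with hδ
  have hδ0 : 0 < δ := by positivity
  have hδK : δ * K = ε / 2 := by rw [hδ]; field_simp
  -- eventually large
  have hlim : Tendsto (fun n => ((τ n).size : ℝ) ^ (ε / 2)) atTop atTop := by
    have h1 : Tendsto (fun n => ((τ n).size : ℝ)) atTop atTop :=
      tendsto_natCast_atTop_atTop.comp hτ
    exact (tendsto_rpow_atTop (by positivity : 0 < ε / 2)).comp h1
  set LC : ℝ := Real.logb 2 (c + 1) with hLC
  have hLC0 : 0 ≤ LC := Real.logb_nonneg (by norm_num) (by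
    have : (0 : ℝ) ≤ c := Nat.cast_nonneg _
    linarith)
  obtain ⟨n₀, hn₀⟩ := (hlim.eventually_ge_atTop (2 * K ^ δ + LC + 1)).exists_forall_of_atTop
  refine ⟨δ, C, fun n => B (n + n₀), hδ0, ?_, fun n => ⟨?_, ?_⟩⟩
  · refine tendsto_atTop_mono (fun n => b1 (n + n₀)) ?_
    exact (tendsto_add_atTop_iff_nat n₀).2 hτ
  · obtain ⟨L, e1, e2⟩ := b3 (n + n₀)
    refine ⟨L, e1, e2.trans ((hBC _).trans ?_)⟩
    exact Nat.mul_le_mul_left _ (Nat.pow_le_pow_left (b1 _) _)
  · intro m hm
    have h1 := (hs (n + n₀)).2 _ (b4 _ m hm)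
    set a : ℝ := ((τ (n + n₀)).size : ℝ) with ha
    have ha1 : (1 : ℝ) ≤ a := by
      rw [ha]; exact_mod_cast size_pos _
    have hx := hn₀ (n + n₀) (by omega)
    rw [← ha] at hx
    set x : ℝ := a ^ (ε / 2) with hxdef
    have hxx : a ^ ε = x * x := by
      rw [hxdef, ← Real.rpow_add (by linarith)]; ring_nf
    -- size of B
    have hB : ((B (n + n₀)).size : ℝ) ≤ K * a ^ K := by
      have h2 : (B (n + n₀)).size ≤ C * (τ (n + n₀)).size ^ C := (b2 _).trans (hBC _)
      have h3 : ((B (n + n₀)).size : ℝ) ≤ C * a ^ C := by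
        rw [ha]; exact_mod_cast h2
      refine h3.trans ?_
      have h4 : a ^ C ≤ a ^ K := by
        rw [← Real.rpow_natCast]
        exact Real.rpow_le_rpow_of_exponent_le ha1 (by rw [hK]; linarith)
      have h5 : (C : ℝ) ≤ K := by rw [hK]; linarith
      exact mul_le_mul h5 h4 (by positivity) (by linarith)
    have hBd : ((B (n + n₀)).size : ℝ) ^ δ ≤ K ^ δ * x := by
      calc ((B (n + n₀)).size : ℝ) ^ δ ≤ (K * a ^ K) ^ δ :=
            Real.rpow_le_rpow (Nat.cast_nonneg _) hB hδ0.le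
        _ = K ^ δ * x := by
            rw [Real.mul_rpow hK0.le (by positivity), ← Real.rpow_mul (by linarith),
              mul_comm K δ, hδK]
    have hx0 : 0 ≤ x := by positivity
    have hKd : 0 ≤ K ^ δ := by positivity
    -- 2 * (K^δ x) + LC ≤ x * x
    have hmain : 2 * (K ^ δ * x) + LC ≤ x * x := by
      have h6 : 1 ≤ x := by linarith
      nlinarith
    have h7 : (2 : ℝ) ^ (2 * (K ^ δ * x) + LC) ≤ (c + 1) * (m : ℝ) ^ 2 := by
      calc (2 : ℝ) ^ (2 * (K ^ δ * x) + LC) ≤ 2 ^ (a ^ ε) := by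
            rw [hxx]
            exact Real.rpow_le_rpow_of_exponent_le (by norm_num) hmain
        _ ≤ (c * m ^ 2 : ℕ) := h1
        _ ≤ (c + 1) * (m : ℝ) ^ 2 := by
            push_cast
            nlinarith [sq_nonneg (m : ℝ)]
    have h8 : (2 : ℝ) ^ LC = c + 1 := by
      rw [hLC]
      exact Real.rpow_logb (by norm_num) (by norm_num) (by
        have : (0 : ℝ) ≤ c := Nat.cast_nonneg _
        linarith)
    rw [Real.rpow_add (by norm_num), h8, mul_comm] at h7
    have hc1 : (0 : ℝ) < c + 1 := by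
      have : (0 : ℝ) ≤ c := Nat.cast_nonneg _
      linarith
    have h9 : (2 : ℝ) ^ (2 * (K ^ δ * x)) ≤ (m : ℝ) ^ 2 := le_of_mul_le_mul_left h7 hc1
    have h10 : ((2 : ℝ) ^ (K ^ δ * x)) ^ 2 ≤ (m : ℝ) ^ 2 := by
      rw [← Real.rpow_natCast ((2 : ℝ) ^ (K ^ δ * x)) 2, ← Real.rpow_mul (by norm_num)]
      refine le_trans (le_of_eq ?_) h9
      congr 1; push_cast; ring
    have h11 : (2 : ℝ) ^ (K ^ δ * x) ≤ m := by
      exact le_of_sq_le_sq h10 (Nat.cast_nonneg _)
    exact (Real.rpow_le_rpow_of_exponent_le (by norm_num) hBd).trans h11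

end Pool.Agent.H586S
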