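import Pool.Agent.H586S.TDefs
import Pool.Agent.H586P.T_frepl

/-! Task T2 of helper586's project (by helper747): trivial substitution rules are useless. -/

set_option autoImplicit false

namespace Pool.Agent.H586S

open Pool.Agent.H555R2.PF Pool.Agent.H555R2.PF.Fm Pool.Agent.H586P Filter

namespace T2

theorem fc_mono {F : List Rule} {G : Fm} {m m' : ℕ} (h : FC F G m) (hm : m ≤ m') : FC F G m' :=
  FO.Can.mono h subset_rfl hm

/-- the equivalences for one template -/
theorem one {F : List Rule} (hF : IsFrege F) {θ : ℕ → Fm} (hl : Loc θ) (ht : Triv θ) :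
    ∃ c : ℕ, ∀ (π : Equiv.Perm ℕ) (x : ℕ), FC F (iff (place θ π x) (var x)) c := by
  obtain ⟨w, hw⟩ := hl
  obtain ⟨c₀, h₀⟩ := FO.schema hF [] (iff (var 0) (var 0)) (by
    intro v _; simp [eval, iff])
  have hn : ∀ n, ∃ c : ℕ, ∀ π : Equiv.Perm ℕ, FC F (iff (place θ π (π n)) (var (π n))) c := by
    intro n
    obtain ⟨c, hc⟩ := FO.schema hF [] (iff (θ n) (var n)) (by
      intro v _
      have := ht v n
      simp only [eval, iff]
      tauto)
    refine ⟨c * 1, fun π => ?_⟩
    have h1 := hc (fun m => var (π m)) 1 le_rfl (fun m => by simp [size]) ∅ (by simp)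
    have h2 : (iff (θ n) (var n)).subst (fun m => var (π m))
        = iff (place θ π (π n)) (var (π n)) := by
      simp only [iff, subst, place, Equiv.symm_apply_apply]
    rw [h2] at h1
    exact h1
  choose f hf using hn
  refine ⟨c₀ * 1 + ∑ n ∈ Finset.range w, f n, fun π x => ?_⟩
  have hx : π (π.symm x) = x := Equiv.apply_symm_apply π x
  by_cases hlt : π.symm x < w
  · have h1 := hf (π.symm x) π
    rw [hx] at h1
    refine fc_mono h1 ?_
    have h2 : f (π.symm x) ≤ ∑ n ∈ Finset.range w, f n :=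
      Finset.single_le_sum (fun _ _ => Nat.zero_le _) (Finset.mem_range.2 hlt)
    omega
  · have h1 := h₀ (fun _ => var x) 1 le_rfl (fun m => by simp [size]) ∅ (by simp)
    have h2 : (iff (var 0) (var 0)).subst (fun _ => var x) = iff (place θ π x) (var x) := by
      simp only [iff, subst, place, hw _ (not_lt.1 hlt), hx]
    rw [h2] at h1
    exact fc_mono h1 (by omega)

/-- the equivalences for all templates -/
theorem all {F : List Rule} (hF : IsFrege F) {H : Set (ℕ → Fm)} (hH : H.Finite)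
    (h : ∀ θ ∈ H, Loc θ ∧ Triv θ) : ∃ c : ℕ, ∀ θ ∈ H, ∀ (π : Equiv.Perm ℕ) (x : ℕ),
      FC F (iff (place θ π x) (var x)) c := by
  classical
  have h1 : ∀ θ : ℕ → Fm, ∃ c : ℕ, θ ∈ H → ∀ (π : Equiv.Perm ℕ) (x : ℕ),
      FC F (iff (place θ π x) (var x)) c := by
    intro θ
    by_cases hθ : θ ∈ H
    · obtain ⟨c, hc⟩ := one hF (h θ hθ).1 (h θ hθ).2
      exact ⟨c, fun _ => hc⟩
    · exact ⟨0, fun hc => absurd hc hθ⟩
  choose f hf using h1
  refine ⟨hH.toFinset.sup f, fun θ hθ π x => fc_mono (hf θ hθ π x) ?_⟩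
  exact Finset.le_sup (hH.mem_toFinset.2 hθ)

/-- simulation of one step -/
theorem step {F : List Rule} (hF : IsFrege F) {H : Set (ℕ → Fm)} (hH : H.Finite)
    (h : ∀ θ ∈ H, Loc θ ∧ Triv θ) : ∃ c : ℕ, ∀ θ ∈ H, ∀ (π : Equiv.Perm ℕ) (A : Fm) (m : ℕ),
      A.size ≤ m → (A.subst (place θ π)).size ≤ m →
      FO.Can F {A} [A.subst (place θ π)] (c * m ^ 2) := by
  obtain ⟨K, hK⟩ := all hF hH h
  obtain ⟨c, hc⟩ := T_frepl.t_frepl F hF
  obtain ⟨c₃, h₃⟩ := FO.schemaL hF [iff (var 0) (var 1), var 1] (var 0) (by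
    intro v h; simp [eval, iff] at h ⊢; tauto)
  refine ⟨K + 2 * c + c₃, fun θ hθ π A m hA hA' => ?_⟩
  have hm1 : 1 ≤ m := (size_pos _).trans hA
  have h1 := hc A (place θ π) var K m hA' (by rw [subst_var]; exact hA)
    (fun n _ => hK θ hθ π n)
  rw [subst_var] at h1
  have h2 := h₃ [A.subst (place θ π), A] m hm1 (by
    intro X hX; simp at hX; rcases hX with rfl | rfl
    exacts [hA', hA]) ({A} ∪ {B | B ∈ [iff (A.subst (place θ π)) A]}) (by
    intro X hX
    simp only [List.mem_cons, List.not_mem_nil, or_false] at hX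
    rcases hX with rfl | rfl
    · right; simp [subst, asg, iff]
    · left; simp [subst, asg])
  have h3 : FO.Can F {A} [iff (A.subst (place θ π)) A] (A.size * K + c * m * (A.size + 1)) :=
    FO.Can.mono h1 (Set.empty_subset _) le_rfl
  refine ((h3.cut h2).sub ?_).mono subset_rfl ?_
  · intro B hB; simpa [subst, asg] using hB
  · have e1 : A.size * K ≤ K * m ^ 2 := by
      calc A.size * K ≤ m * K := Nat.mul_le_mul_right _ hA
        _ ≤ K * m ^ 2 := by nlinarith [Nat.zero_le (K * m), Nat.mul_le_mul_left (K * m) hm1]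
    have e2 : c * m * (A.size + 1) ≤ 2 * c * m ^ 2 := by
      calc c * m * (A.size + 1) ≤ c * m * (2 * m) := Nat.mul_le_mul_left _ (by omega)
        _ = 2 * c * m ^ 2 := by ring
    have e3 : c₃ * m ≤ c₃ * m ^ 2 := Nat.mul_le_mul_left _ (Nat.le_self_pow (by norm_num) m)
    calc A.size * K + c * m * (A.size + 1) + c₃ * m ≤ K * m ^ 2 + 2 * c * m ^ 2 + c₃ * m ^ 2 := by
          omega
      _ = (K + 2 * c + c₃) * m ^ 2 := by ring

theorem sim {F : List Rule} {H : Set (ℕ → Fm)} {c : ℕ}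
    (hc : ∀ θ ∈ H, ∀ (π : Equiv.Perm ℕ) (A : Fm) (m : ℕ),
      A.size ≤ m → (A.subst (place θ π)).size ≤ m →
      FO.Can F {A} [A.subst (place θ π)] (c * m ^ 2)) {L : List Fm} (hL : SProof F H L) :
    ∀ m, psize L ≤ m → ∃ L' : List Fm, FO.FProof F L' ∧ (∀ B ∈ L, B ∈ L') ∧
      psize L' ≤ L.length * ((c + 1) * m ^ 2) := by
  induction hL with
  | nil => exact fun m _ => ⟨[], FO.FProof.nil, by simp, by simp [psize]⟩
  | @rule L B _ hB ih =>
    intro m hm
    rw [psize_cons] at hm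
    obtain ⟨L', h1, h2, h3⟩ := ih m (by omega)
    obtain ⟨r, hr, σ, e1, e2⟩ := hB
    refine ⟨B :: L', FO.FProof.rule h1 ⟨r, hr, σ, e1, fun p hp => h2 _ (e2 p hp)⟩, ?_, ?_⟩
    · intro C hC
      rcases List.mem_cons.1 hC with rfl | hC
      · simp
      · exact List.mem_cons_of_mem _ (h2 C hC)
    · rw [psize_cons, List.length_cons]
      have e3 : B.size ≤ (c + 1) * m ^ 2 := by
        calc B.size ≤ m := by omega
          _ ≤ m ^ 2 := Nat.le_self_pow (by norm_num) m
          _ ≤ (c + 1) * m ^ 2 := Nat.le_mul_of_pos_left _ (Nat.succ_pos c)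
      calc B.size + psize L' ≤ (c + 1) * m ^ 2 + L.length * ((c + 1) * m ^ 2) := by omega
        _ = (L.length + 1) * ((c + 1) * m ^ 2) := by ring
  | @sub L A θ π _ hθ hA ih =>
    intro m hm
    rw [psize_cons] at hm
    obtain ⟨L', h1, h2, h3⟩ := ih m (by omega)
    have hAs : A.size ≤ m := (size_le_psize hA).trans (by omega)
    obtain ⟨D, d1, d2, d3⟩ := hc θ hθ π A m hAs (by omega) L' h1 (by
      intro X hX
      rw [Set.mem_singleton_iff] at hX
      subst hX
      exact h2 _ hA)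
    refine ⟨D ++ L', d1, ?_, ?_⟩
    · intro C hC
      rcases List.mem_cons.1 hC with rfl | hC
      · exact d2 _ (by simp)
      · exact List.mem_append_right _ (h2 C hC)
    · rw [psize_append, List.length_cons]
      have e3 : c * m ^ 2 ≤ (c + 1) * m ^ 2 := Nat.mul_le_mul_right _ (Nat.le_succ c)
      calc psize D + psize L' ≤ (c + 1) * m ^ 2 + L.length * ((c + 1) * m ^ 2) := by omega
        _ = (L.length + 1) * ((c + 1) * m ^ 2) := by ring

end T2

open T2 in
theorem t2 : S_T2 := by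
  intro F hF H hH h
  obtain ⟨c, hc⟩ := step hF hH h
  refine ⟨c + 3, fun A m hA => ?_⟩
  obtain ⟨L, hL, hm⟩ := hA
  obtain ⟨L', h1, h2, h3⟩ := sim hc hL m hm
  obtain ⟨L'', g1, g2⟩ := fproof_cut h1 (h2 A (by simp))
  refine ⟨L'', g1, g2.trans (h3.trans ?_)⟩
  have hlen : (A :: L).length ≤ m := (length_le_psize _).trans hm
  have hm1 : 1 ≤ m := by
    have : 1 ≤ (A :: L).length := by simp
    omega
  calc (A :: L).length * ((c + 1) * m ^ 2) ≤ m * ((c + 1) * m ^ 2) := Nat.mul_le_mul_right _ hlen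
    _ = (c + 1) * m ^ 3 := by ring
    _ ≤ (c + 3) * m ^ (c + 3) := Nat.mul_le_mul (by omega) (Nat.pow_le_pow_right hm1 (by omega))

end Pool.Agent.H586S
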