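import Pool.Agent.H586S.TDefs

/-!
# Local substitution rules: removing provable hypotheses
-/

set_option autoImplicit false

namespace Pool.Agent.H586S

open Pool.Agent.H555R2.PF Pool.Agent.H555R2.PF.Fm Pool.Agent.H586P Filter

theorem t4_can {F : List Rule} (hF : IsFrege F) : ∃ c : ℕ, ∀ (l : List Fm) (A : Fm) (N : ℕ),
    (imps l A).size ≤ N →
    (∀ X ∈ l, ∃ Y : Fm, X = imp Y Y ∨ X = neg (neg (imp Y Y))) →
    ∀ Γ : Set Fm, imps l A ∈ Γ → FO.Can F Γ [A] (c * N * l.length) := by
  obtain ⟨c₁, h₁⟩ := FO.schemaL hF [] (imp (var 0) (var 0)) (by intro v _; simp [eval])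
  obtain ⟨c₂, h₂⟩ := FO.schemaL hF [] (neg (neg (imp (var 0) (var 0)))) (by
    intro v _; simp [eval])
  obtain ⟨c₃, h₃⟩ := FO.schemaL hF [imp (var 0) (var 1), var 0] (var 1) (by
    intro v h; simp [eval] at h ⊢; tauto)
  refine ⟨c₁ + c₂ + c₃, fun l A N => ?_⟩
  induction l with
  | nil =>
    intro _ _ Γ hΓ
    exact (FO.Can.hyp (by simpa [imps] using hΓ)).mono subset_rfl (Nat.zero_le _)
  | cons X l ih =>
    intro hs hl Γ hΓ
    have hN : 1 ≤ N := (size_pos _).trans hs
    have himp : imps (X :: l) A = imp X (imps l A) := rfl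
    rw [himp] at hs hΓ
    have hs' : X.size ≤ N ∧ (imps l A).size ≤ N := by
      simp only [size] at hs; omega
    have hX : FO.Can F Γ [X] ((c₁ + c₂) * N) := by
      obtain ⟨Y, hY | hY⟩ := hl X (by simp)
      · have hYs : Y.size ≤ N := by
          have := hs'.1
          rw [hY] at this
          simp only [size] at this
          omega
        refine ((h₁ [Y] N hN (by
          intro Z hZ; simp at hZ; subst hZ; exact hYs) Γ (by simp)).sub ?_).mono subset_rfl ?_
        · intro B hB
          rw [hY] at hB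
          simpa [subst, asg] using hB
        · exact Nat.mul_le_mul_right _ (by omega)
      · have hYs : Y.size ≤ N := by
          have := hs'.1
          rw [hY] at this
          simp only [size] at this
          omega
        refine ((h₂ [Y] N hN (by
          intro Z hZ; simp at hZ; subst hZ; exact hYs) Γ (by simp)).sub ?_).mono subset_rfl ?_
        · intro B hB
          rw [hY] at hB
          simpa [subst, asg] using hB
        · exact Nat.mul_le_mul_right _ (by omega)
    have hmp := h₃ [X, imps l A] N hN (by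
      intro Z hZ; simp at hZ; rcases hZ with rfl | rfl
      exacts [hs'.1, hs'.2]) (Γ ∪ {B | B ∈ [X]}) (by
      intro Z hZ
      simp only [List.mem_cons, List.not_mem_nil, or_false] at hZ
      rcases hZ with rfl | rfl
      · left; simpa [subst, asg] using hΓ
      · right; simp [subst, asg])
    have hstep : FO.Can F Γ [imps l A] ((c₁ + c₂) * N + c₃ * N) := by
      refine (hX.cut hmp).sub ?_
      intro B hB
      simpa [subst, asg] using hB
    have hrec := ih hs'.2 (fun Z hZ => hl Z (by simp [hZ])) (Γ ∪ {B | B ∈ [imps l A]})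
      (by right; simp)
    refine (hstep.cut hrec).mono subset_rfl ?_
    simp only [List.length_cons]
    nlinarith

theorem imps_length (l : List Fm) (A : Fm) : l.length ≤ (imps l A).size := by
  induction l with
  | nil => simp
  | cons X l ih =>
    have himp : imps (X :: l) A = imp X (imps l A) := rfl
    rw [himp]
    simp only [size, List.length_cons]
    omega

/-- **task T4** -/
theorem t4 {F : List Rule} (hF : IsFrege F) : S_T4 F := by
  obtain ⟨c, hc⟩ := t4_can hF
  refine ⟨c + 1, ?_⟩
  intro l A m M hl h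
  obtain ⟨L, hL, hm⟩ := h
  have hs : (imps l A).size ≤ m := by
    rw [psize_cons] at hm; omega
  have hlen : l.length ≤ m := (imps_length l A).trans hs
  have hm1 : 1 ≤ m := (size_pos _).trans hs
  have hcan := hc l A m hs (fun X hX => by
    obtain ⟨Y, _, hY⟩ := hl X hX
    exact ⟨Y, hY⟩) {imps l A} (by simp)
  obtain ⟨D, d1, d2, d3⟩ := hcan _ hL (by intro X hX; simp at hX; subst hX; simp)
  have hAD : A ∈ D ++ (imps l A :: L) := d2 A (by simp)
  obtain ⟨L', e1, e2⟩ := fproof_cut d1 hAD
  refine ⟨L', e1, e2.trans ?_⟩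
  rw [psize_append]
  have t1 : c * m * l.length ≤ c * m ^ 2 := by
    rw [pow_two, ← mul_assoc]; exact Nat.mul_le_mul_left _ hlen
  have t2 : m ≤ m ^ 2 := by nlinarith
  have t3 : m ^ 2 ≤ (m + M) ^ 2 := Nat.pow_le_pow_left (by omega) 2
  calc psize D + psize (imps l A :: L) ≤ c * m ^ 2 + m ^ 2 := by omega
    _ = (c + 1) * m ^ 2 := by ring
    _ ≤ (c + 1) * (m + M) ^ 2 := Nat.mul_le_mul_left _ t3

end Pool.Agent.H586S
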